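import Pool.Agent.Y922.ZF.GenP

/-!
# A criterion for independence at the primes

Let `b_z` be finitely many sequences with `b_z(p) = O(p ^ w)`, such that no nontrivial combination of them with constant
coefficients is `o(p ^ w)` along the primes. Then all their shifts are independent at the primes, even with coefficients
which are polynomials in `log p`.
-/

set_option autoImplicit false

open Finset Filter Asymptotics Topology

namespace Pool.Agent.Y456.DP

/-- the primes in a set -/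
def prm (S : Set ℕ) : Filter ℕ := atTop ⊓ 𝓟 {p | p.Prime ∧ p ∈ S}

/-- no nontrivial combination with constant coefficients is `o (p ^ w)` along the primes in `S` -/
def ND {Z : Type} [Fintype Z] (S : Set ℕ) (w : ℝ) (b : Z → ℕ → ℂ) : Prop :=
  ∀ c : Z → ℂ, c ≠ 0 → ¬ Tendsto (fun p : ℕ => (∑ z, c z * b z p) / (((p : ℝ) ^ w : ℝ) : ℂ)) (prm S) (𝓝 0)

theorem log_top (S : Set ℕ) : Tendsto (fun p : ℕ => Real.log p) (prm S) atTop :=
  (Real.tendsto_log_atTop.comp tendsto_natCast_atTop_atTop).mono_left inf_le_left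

/-- the value of a polynomial at `log p` divided by a power of `log p` -/
theorem poly_lim (S : Set ℕ) (q : Polynomial ℂ) (D : ℕ) (hD : q.natDegree ≤ D) :
    Tendsto (fun p : ℕ => q.eval ((Real.log p : ℝ) : ℂ) / ((Real.log p : ℝ) : ℂ) ^ D) (prm S) (𝓝 (q.coeff D)) := by
  have h1 : ∀ᶠ p : ℕ in prm S, 0 < Real.log p := (log_top S).eventually_gt_atTop 0
  have h2 : Tendsto (fun p : ℕ => ∑ k ∈ Finset.range (D + 1), q.coeff k *
      (((Real.log p : ℝ) : ℂ) ^ k / ((Real.log p : ℝ) : ℂ) ^ D)) (prm S)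
      (𝓝 (∑ k ∈ Finset.range (D + 1), q.coeff k * (if k = D then 1 else 0))) := by
    refine tendsto_finsetSum _ fun k hk => Tendsto.const_mul _ ?_
    by_cases hkD : k = D
    · rw [if_pos hkD]
      refine tendsto_const_nhds.congr' ?_
      filter_upwards [h1] with p hp
      rw [hkD, div_self]
      exact pow_ne_zero _ (by exact_mod_cast hp.ne')
    · rw [if_neg hkD]
      have hlt : k < D := lt_of_le_of_ne (by simpa [Nat.lt_succ_iff] using hk) hkD
      have h3 : Tendsto (fun p : ℕ => ((Real.log p)⁻¹ : ℝ) ^ (D - k)) (prm S) (𝓝 0) := by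
        have h4 := (tendsto_inv_atTop_zero.comp (log_top S)).pow (D - k)
        rw [zero_pow (by omega)] at h4
        exact h4
      have h5 : Tendsto (fun p : ℕ => ((((Real.log p)⁻¹ : ℝ) ^ (D - k) : ℝ) : ℂ)) (prm S) (𝓝 0) := by
        rw [← Complex.ofReal_zero]
        exact (Complex.continuous_ofReal.tendsto 0).comp h3
      refine h5.congr' ?_
      filter_upwards [h1] with p hp
      have hp' : ((Real.log p : ℝ) : ℂ) ≠ 0 := by exact_mod_cast hp.ne'
      rw [eq_div_iff (pow_ne_zero _ hp'), Complex.ofReal_pow, Complex.ofReal_inv, inv_pow]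
      have h6 : ((Real.log p : ℝ) : ℂ) ^ D = ((Real.log p : ℝ) : ℂ) ^ (D - k) * ((Real.log p : ℝ) : ℂ) ^ k := by
        rw [← pow_add]
        congr 1
        omega
      rw [h6, ← mul_assoc, inv_mul_cancel₀ (pow_ne_zero _ hp'), one_mul]
  have h7 : (∑ k ∈ Finset.range (D + 1), q.coeff k * (if k = D then (1 : ℂ) else 0)) = q.coeff D := by
    rw [Finset.sum_eq_single D]
    · simp
    · intro k _ hk
      simp [hk]
    · intro h
      exact absurd (Finset.mem_range.2 (Nat.lt_succ_self D)) h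
  rw [h7] at h2
  refine h2.congr fun p => ?_
  rw [Polynomial.eval_eq_sum_range' (Nat.lt_succ_of_le hD), Finset.sum_div]
  refine Finset.sum_congr rfl fun k _ => ?_
  rw [mul_div_assoc]

/-- the value of a polynomial at `log p` is small compared with positive powers of `p` -/
theorem poly_small (S : Set ℕ) (q : Polynomial ℂ) (D : ℕ) (δ : ℝ) (hδ : 0 < δ) :
    Tendsto (fun p : ℕ => q.eval ((Real.log p : ℝ) : ℂ) / ((Real.log p : ℝ) : ℂ) ^ D *
      ((Real.exp (-δ * Real.log p) : ℝ) : ℂ)) (prm S) (𝓝 0) := by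
  have h1 : ∀ᶠ p : ℕ in prm S, 1 ≤ Real.log p := (log_top S).eventually_ge_atTop 1
  have h2 : Tendsto (fun p : ℕ => ∑ k ∈ Finset.range (q.natDegree + 1),
      ‖q.coeff k‖ * (Real.log p ^ k * Real.exp (-δ * Real.log p))) (prm S) (𝓝 0) := by
    have h3 : Tendsto (fun p : ℕ => ∑ k ∈ Finset.range (q.natDegree + 1),
      ‖q.coeff k‖ * (Real.log p ^ k * Real.exp (-δ * Real.log p))) (prm S)
      (𝓝 (∑ k ∈ Finset.range (q.natDegree + 1), ‖q.coeff k‖ * 0)) := by
      refine tendsto_finsetSum _ fun k _ => Tendsto.const_mul _ ?_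
      have h4 := (tendsto_rpow_mul_exp_neg_mul_atTop_nhds_zero (k : ℝ) δ hδ).comp (log_top S)
      refine h4.congr fun p => ?_
      simp only [Function.comp_apply, Real.rpow_natCast]
    simpa using h3
  refine squeeze_zero_norm' ?_ h2
  filter_upwards [h1] with p hp
  rw [norm_mul, norm_div, norm_pow, Complex.norm_real, Complex.norm_real, Real.norm_eq_abs, Real.norm_eq_abs,
    abs_of_pos (Real.exp_pos _), abs_of_pos (by linarith : 0 < Real.log p)]
  have h4 : ‖q.eval ((Real.log p : ℝ) : ℂ)‖ ≤ ∑ k ∈ Finset.range (q.natDegree + 1), ‖q.coeff k‖ * Real.log p ^ k := by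
    rw [Polynomial.eval_eq_sum_range]
    refine (norm_sum_le _ _).trans (Finset.sum_le_sum fun k _ => ?_)
    rw [norm_mul, norm_pow, Complex.norm_real, Real.norm_eq_abs, abs_of_pos (by linarith : 0 < Real.log p)]
  have h5 : ‖q.eval ((Real.log p : ℝ) : ℂ)‖ / Real.log p ^ D ≤ ‖q.eval ((Real.log p : ℝ) : ℂ)‖ :=
    div_le_self (norm_nonneg _) (one_le_pow₀ hp)
  calc ‖q.eval ((Real.log p : ℝ) : ℂ)‖ / Real.log p ^ D * Real.exp (-δ * Real.log p)
      ≤ (∑ k ∈ Finset.range (q.natDegree + 1), ‖q.coeff k‖ * Real.log p ^ k) * Real.exp (-δ * Real.log p) := by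
        gcongr
        exact h5.trans h4
    _ = _ := by
        rw [Finset.sum_mul]
        refine Finset.sum_congr rfl fun k _ => ?_
        ring

/-- **Criterion.** -/
theorem PP_nd' {Z : Type} [Fintype Z] {r : ℕ} (w : ℝ) (C : ℝ) (b : Z → ℕ → ℂ)
    (hb : ∀ z, ∀ᶠ p : ℕ in prm Set.univ, ‖b z p‖ ≤ C * (p : ℝ) ^ w) (hN : ND Set.univ w b) (α : Fin r → ℝ)
    (hα : Function.Injective α) :
    Y922.ZF.PP fun (y : Fin r × Z) (n : ℕ) => b y.2 n * (n : ℂ) ^ (-(α y.1 : ℂ)) := by
  classical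
  intro c hc
  by_contra hne
  -- the smallest shift which occurs
  have h0 : (Finset.univ.filter fun i : Fin r => ∃ z, c (i, z) ≠ 0).Nonempty := by
    by_contra hem
    rw [Finset.not_nonempty_iff_eq_empty] at hem
    apply hne
    funext ⟨i, z⟩
    by_contra hcz
    have : i ∈ (Finset.univ.filter fun i : Fin r => ∃ z, c (i, z) ≠ 0) := by
      rw [Finset.mem_filter]
      exact ⟨Finset.mem_univ _, z, hcz⟩
    rw [hem] at this
    exact absurd this (Finset.notMem_empty _)
  obtain ⟨i₀, hi₀, hmin⟩ := Finset.exists_min_image _ α h0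
  rw [Finset.mem_filter] at hi₀
  have h1 : (Finset.univ.filter fun z : Z => c (i₀, z) ≠ 0).Nonempty := by
    obtain ⟨z, hz⟩ := hi₀.2
    exact ⟨z, by rw [Finset.mem_filter]; exact ⟨Finset.mem_univ _, hz⟩⟩
  obtain ⟨z₀, hz₀, hmax⟩ := Finset.exists_max_image _ (fun z => (c (i₀, z)).natDegree) h1
  rw [Finset.mem_filter] at hz₀
  set D := (c (i₀, z₀)).natDegree with hD
  have hdeg : ∀ z, (c (i₀, z)).natDegree ≤ D := by
    intro z
    by_cases hz : c (i₀, z) = 0
    · rw [hz]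
      simp
    · exact hmax z (by rw [Finset.mem_filter]; exact ⟨Finset.mem_univ _, hz⟩)
  have hother : ∀ i, i ≠ i₀ → (∃ z, c (i, z) ≠ 0) → α i₀ < α i := by
    intro i hi hz
    refine lt_of_le_of_ne (hmin i (by rw [Finset.mem_filter]; exact ⟨Finset.mem_univ _, hz⟩)) ?_
    intro h
    exact hi (hα h.symm)
  have hc' : (fun z => (c (i₀, z)).coeff D) ≠ 0 := by
    intro h
    have := congrFun h z₀
    simp only [Pi.zero_apply] at this
    exact hz₀.2 (Polynomial.leadingCoeff_eq_zero.1 this)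
  refine hN _ hc' ?_
  -- boundedness
  have hbd : ∀ z, IsBoundedUnder (· ≤ ·) (prm Set.univ) (norm ∘ fun p : ℕ => b z p / (((p : ℝ) ^ w : ℝ) : ℂ)) := by
    intro z
    refine ⟨C, ?_⟩
    rw [eventually_map]
    have : ∀ᶠ p : ℕ in prm Set.univ, p.Prime := by
      refine eventually_inf_principal.2 (Eventually.of_forall fun p hp => hp.1)
    filter_upwards [this, hb z] with p hp hbz
    have hp0 : (0 : ℝ) < (p : ℝ) ^ w := Real.rpow_pos_of_pos (by exact_mod_cast hp.pos) _
    rw [Function.comp_apply, norm_div, Complex.norm_real, Real.norm_eq_abs, abs_of_pos hp0, div_le_iff₀ hp0]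
    exact hbz
  have hlog : ∀ᶠ p : ℕ in prm Set.univ, 0 < Real.log p := (log_top _).eventually_gt_atTop 0
  -- the remainder
  have hrem : Tendsto (fun p : ℕ => -(∑ z, ((c (i₀, z)).eval ((Real.log p : ℝ) : ℂ) / ((Real.log p : ℝ) : ℂ) ^ D -
        (c (i₀, z)).coeff D) * (b z p / (((p : ℝ) ^ w : ℝ) : ℂ)) +
      ∑ i ∈ Finset.univ.erase i₀, ∑ z, ((c (i, z)).eval ((Real.log p : ℝ) : ℂ) / ((Real.log p : ℝ) : ℂ) ^ D *
        ((Real.exp (-(α i - α i₀) * Real.log p) : ℝ) : ℂ)) * (b z p / (((p : ℝ) ^ w : ℝ) : ℂ))))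
      (prm Set.univ) (𝓝 0) := by
    rw [← neg_zero, ← add_zero (0 : ℂ)]
    refine Tendsto.neg (Tendsto.add ?_ ?_)
    · rw [← Finset.sum_const_zero (s := (Finset.univ : Finset Z))]
      refine tendsto_finsetSum _ fun z _ => ?_
      refine Tendsto.zero_mul_isBoundedUnder_le ?_ (hbd z)
      have := (poly_lim Set.univ (c (i₀, z)) D (hdeg z)).sub_const ((c (i₀, z)).coeff D)
      rwa [sub_self] at this
    · rw [← Finset.sum_const_zero (s := (Finset.univ.erase i₀ : Finset (Fin r)))]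
      refine tendsto_finsetSum _ fun i hi => ?_
      rw [← Finset.sum_const_zero (s := (Finset.univ : Finset Z))]
      refine tendsto_finsetSum _ fun z _ => ?_
      refine Tendsto.zero_mul_isBoundedUnder_le ?_ (hbd z)
      by_cases hz : c (i, z) = 0
      · rw [hz]
        simp only [Polynomial.eval_zero, zero_div, zero_mul]
        exact tendsto_const_nhds
      · exact poly_small Set.univ (c (i, z)) D (α i - α i₀)
          (sub_pos.2 (hother i (Finset.ne_of_mem_erase hi) ⟨z, hz⟩))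
  refine hrem.congr' ?_
  have hprime : ∀ᶠ p : ℕ in prm Set.univ, p.Prime := by
    refine eventually_inf_principal.2 (Eventually.of_forall fun p hp => hp.1)
  filter_upwards [hlog, hprime] with p hp hpp
  have hp0 : (0 : ℝ) < p := by exact_mod_cast hpp.pos
  have hpw : (((p : ℝ) ^ w : ℝ) : ℂ) ≠ 0 := by exact_mod_cast (Real.rpow_pos_of_pos hp0 w).ne'
  have hL : ((Real.log p : ℝ) : ℂ) ^ D ≠ 0 := pow_ne_zero _ (by exact_mod_cast hp.ne')
  have hE : ∀ i, (p : ℂ) ^ (-(α i : ℂ)) = ((Real.exp (-α i * Real.log p) : ℝ) : ℂ) := by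
    intro i
    rw [mul_comm, ← Real.rpow_def_of_pos hp0, Complex.ofReal_cpow hp0.le]
    simp
  have hrel := hc p hpp
  rw [Fintype.sum_prod_type] at hrel
  simp only [hE] at hrel
  -- divide by `p ^ (w - α i₀) (log p) ^ D`
  have hrel2 : ∑ i, ∑ z, ((c (i, z)).eval ((Real.log p : ℝ) : ℂ) / ((Real.log p : ℝ) : ℂ) ^ D *
        ((Real.exp (-(α i - α i₀) * Real.log p) : ℝ) : ℂ)) * (b z p / (((p : ℝ) ^ w : ℝ) : ℂ)) = 0 := by
    have : ∑ i, ∑ z, ((c (i, z)).eval ((Real.log p : ℝ) : ℂ) / ((Real.log p : ℝ) : ℂ) ^ D *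
        ((Real.exp (-(α i - α i₀) * Real.log p) : ℝ) : ℂ)) * (b z p / (((p : ℝ) ^ w : ℝ) : ℂ)) =
        (((Real.exp (α i₀ * Real.log p) : ℝ) : ℂ) / (((Real.log p : ℝ) : ℂ) ^ D * (((p : ℝ) ^ w : ℝ) : ℂ))) *
        ∑ i, ∑ z, (c (i, z)).eval ((Real.log p : ℝ) : ℂ) * (b z p * ((Real.exp (-α i * Real.log p) : ℝ) : ℂ)) := by
      rw [Finset.mul_sum]
      refine Finset.sum_congr rfl fun i _ => ?_
      rw [Finset.mul_sum]
      refine Finset.sum_congr rfl fun z _ => ?_
      have hexp : Real.exp (-(α i - α i₀) * Real.log p) = Real.exp (α i₀ * Real.log p) * Real.exp (-α i * Real.log p) := by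
        rw [← Real.exp_add]
        congr 1
        ring
      rw [hexp, Complex.ofReal_mul]
      field_simp
    rw [this, hrel, mul_zero]
  rw [← Finset.add_sum_erase _ _ (Finset.mem_univ i₀)] at hrel2
  have h3 : ∑ z, ((c (i₀, z)).eval ((Real.log p : ℝ) : ℂ) / ((Real.log p : ℝ) : ℂ) ^ D *
        ((Real.exp (-(α i₀ - α i₀) * Real.log p) : ℝ) : ℂ)) * (b z p / (((p : ℝ) ^ w : ℝ) : ℂ)) =
      ∑ z, ((c (i₀, z)).eval ((Real.log p : ℝ) : ℂ) / ((Real.log p : ℝ) : ℂ) ^ D -
        (c (i₀, z)).coeff D) * (b z p / (((p : ℝ) ^ w : ℝ) : ℂ)) +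
      (∑ z, (c (i₀, z)).coeff D * b z p) / (((p : ℝ) ^ w : ℝ) : ℂ) := by
    rw [Finset.sum_div, ← Finset.sum_add_distrib]
    refine Finset.sum_congr rfl fun z _ => ?_
    rw [sub_self, neg_zero, zero_mul, Real.exp_zero, Complex.ofReal_one, mul_one]
    ring
  rw [h3] at hrel2
  linear_combination -hrel2

/-- the criterion with a bound at all primes -/
theorem PP_nd {Z : Type} [Fintype Z] {r : ℕ} (w : ℝ) (C : ℝ) (b : Z → ℕ → ℂ)
    (hb : ∀ z, ∀ p : ℕ, p.Prime → ‖b z p‖ ≤ C * (p : ℝ) ^ w) (hN : ND Set.univ w b) (α : Fin r → ℝ)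
    (hα : Function.Injective α) :
    Y922.ZF.PP fun (y : Fin r × Z) (n : ℕ) => b y.2 n * (n : ℂ) ^ (-(α y.1 : ℂ)) :=
  PP_nd' w C b (fun z => eventually_inf_principal.2 (Eventually.of_forall fun p hp => hb z p hp.1)) hN α hα

end Pool.Agent.Y456.DP
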