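import Pool.Agent.Y456.DP.Ind

/-!
# Twists by Dirichlet characters and integral shifts
-/

set_option autoImplicit false

open Finset Filter Asymptotics Topology

namespace Pool.Agent.Y456.DP

/-- distinct Dirichlet characters are linearly independent on the units -/
theorem char_ind {q t : ℕ} (χ : Fin t → DirichletCharacter ℂ q) (hχ : Function.Injective χ) (c : Fin t → ℂ)
    (hc : ∀ u : (ZMod q)ˣ, ∑ l, c l * χ l (u : ZMod q) = 0) : c = 0 := by
  classical
  let f : Fin t → ((ZMod q)ˣ →* ℂ) := fun l => (Units.coeHom ℂ).comp (MulChar.toUnitHom (χ l))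
  have hf : Function.Injective f := by
    intro l l' h
    apply hχ
    apply MulChar.equivToUnitHom.injective
    ext u
    have := DFunLike.congr_fun h u
    simpa [f] using this
  have h1 := (linearIndependent_monoidHom (ZMod q)ˣ ℂ).comp f hf
  rw [Fintype.linearIndependent_iff] at h1
  funext l
  refine h1 c ?_ l
  funext u
  simp only [Finset.sum_apply, Pi.smul_apply, smul_eq_mul, Pi.zero_apply]
  rw [← hc u]
  refine Finset.sum_congr rfl fun l _ => ?_
  simp [f]

/-- twists of families which are nondegenerate in every residue class -/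
theorem ND_tw {J : Type} [Fintype J] {q t : ℕ} (χ : Fin t → DirichletCharacter ℂ q) (hχ : Function.Injective χ)
    (w : ℝ) (b : J → ℕ → ℂ) (hb : ∀ u : (ZMod q)ˣ, ND {p | (p : ZMod q) = u} w b) :
    ND Set.univ w (fun (z : J × Fin t) (p : ℕ) => χ z.2 (p : ZMod q) * b z.1 p) := by
  classical
  intro c hc hT
  obtain ⟨j₀, hj₀⟩ : ∃ j, (fun l => c (j, l)) ≠ 0 := by
    by_contra hcon
    push Not at hcon
    apply hc
    funext ⟨j, l⟩
    exact congrFun (hcon j) l
  obtain ⟨u, hu⟩ : ∃ u : (ZMod q)ˣ, ∑ l, c (j₀, l) * χ l (u : ZMod q) ≠ 0 := by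
    by_contra hcon
    push Not at hcon
    exact hj₀ (char_ind χ hχ _ hcon)
  refine hb u (fun j => ∑ l, c (j, l) * χ l (u : ZMod q)) (fun h => hu (congrFun h j₀)) ?_
  have hle : prm {p | (p : ZMod q) = u} ≤ prm Set.univ := by
    refine inf_le_inf_left _ (principal_mono.2 ?_)
    rintro p ⟨hp, -⟩
    exact ⟨hp, Set.mem_univ _⟩
  refine (hT.mono_left hle).congr' ?_
  have : ∀ᶠ p : ℕ in prm {p | (p : ZMod q) = u}, (p : ZMod q) = u :=
    eventually_inf_principal.2 (Eventually.of_forall fun p hp => hp.2)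
  filter_upwards [this] with p hp
  congr 1
  rw [Fintype.sum_prod_type]
  refine Finset.sum_congr rfl fun j _ => ?_
  rw [Finset.sum_mul]
  refine Finset.sum_congr rfl fun l _ => ?_
  simp only [hp]
  ring

theorem term_shift (f : ℕ → ℂ) (μ s : ℂ) (n : ℕ) :
    LSeries.term (fun n => f n * (n : ℂ) ^ (-μ)) s n = LSeries.term f (s + μ) n := by
  by_cases hn : n = 0
  · rw [hn]
    simp
  · have hn' : (n : ℂ) ≠ 0 := by exact_mod_cast hn
    rw [LSeries.term_of_ne_zero hn, LSeries.term_of_ne_zero hn, Complex.cpow_add _ _ hn', Complex.cpow_neg]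
    field_simp

theorem series_shift (f : ℕ → ℂ) (μ s : ℂ) :
    LSeries (fun n => f n * (n : ℂ) ^ (-μ)) s = LSeries f (s + μ) := by
  unfold LSeries
  exact tsum_congr fun n => term_shift f μ s n

theorem summable_shift (f : ℕ → ℂ) (μ s : ℂ) (h : LSeriesSummable f (s + μ)) :
    LSeriesSummable (fun n => f n * (n : ℂ) ^ (-μ)) s := by
  unfold LSeriesSummable at h ⊢
  exact h.congr fun n => (term_shift f μ s n).symm

end Pool.Agent.Y456.DP
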